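import Pool.Agent.Lib.H66N.N2

/-!
# H33U, file Del: removing elements from a `k`-acyclic complex of plane sets (`H66N.AcyN cross k`)

* `prin`: `S`, `T` disjoint, for every plane `Y` in `T` (also the empty one) the link of `Y` in `S + T` is acyclic,
  then `S` is acyclic;
* `acy_join`: nothing of `A` crosses anything of `B`, `A` acyclic, then `A + B` is acyclic;
* `un_un`, `principle`: the form for `Un cross W F`.
-/

set_option autoImplicit false
set_option linter.unusedSectionVars false

namespace H33U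

open Finset H98P H98Z H66N

section
variable {E : Type*} [Fintype E] [DecidableEq E] {n : ℕ}

theorem miss_empty' {cross : E → E → Prop} {S : Finset E} : Miss cross S ∅ = S := by
  ext e
  rw [mem_miss]
  exact ⟨fun h => h.1, fun h => ⟨h, fun y hy => absurd hy (notMem_empty y)⟩⟩

/-- All links. -/
theorem prin_all {cross : E → E → Prop} (hsymm : ∀ e f, cross e f → cross f e) {S T : Finset E}
    (hST : Disjoint S T)
    (hl : ∀ Y ⊆ T, Plane cross Y → AcyN cross n (Miss cross (S ∪ T) Y \ Y)) :
    ∀ Y ⊆ T, Plane cross Y → AcyN cross n (Miss cross S Y) := by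
  have main : ∀ (k : ℕ) (Y : Finset E), (T \ Y).card = k → Y ⊆ T → Plane cross Y →
      AcyN cross n (Miss cross S Y) := by
    intro k
    induction k using Nat.strong_induction_on with
    | _ k ih =>
      intro Y hk hY hYp
      have h0 : Miss cross (S ∪ T) Y \ Y = Miss cross S Y ∪ (Miss cross T Y \ Y) := by
        ext e
        rw [mem_sdiff, mem_miss, mem_union, mem_union, mem_miss, mem_sdiff, mem_miss]
        constructor
        · rintro ⟨⟨h1 | h1, h2⟩, h3⟩
          · exact Or.inl ⟨h1, h2⟩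
          · exact Or.inr ⟨⟨h1, h2⟩, h3⟩
        · rintro (⟨h1, h2⟩ | ⟨⟨h1, h2⟩, h3⟩)
          · exact ⟨⟨Or.inl h1, h2⟩, fun h => disjoint_left.1 hST h1 (hY h)⟩
          · exact ⟨⟨Or.inr h1, h2⟩, h3⟩
      have hd : Disjoint (Miss cross S Y) (Miss cross T Y \ Y) := by
        rw [disjoint_left]
        intro e he he'
        exact disjoint_left.1 hST (mem_miss.1 he).1 (mem_miss.1 (mem_sdiff.1 he').1).1
      refine splitN_mp hsymm hd ?_ (h0 ▸ hl Y hY hYp)
      intro Z hZ hZn hZp
      rw [miss_miss]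
      have hZT : Z ⊆ T := fun e he => (mem_miss.1 (mem_sdiff.1 (hZ he)).1).1
      have hZY : ∀ e ∈ Z, e ∉ Y := fun e he => (mem_sdiff.1 (hZ he)).2
      obtain ⟨z, hz⟩ := hZn
      refine ih (T \ (Y ∪ Z)).card ?_ (Y ∪ Z) rfl (union_subset hY hZT) ?_
      · rw [← hk]
        refine card_lt_card ?_
        rw [ssubset_iff_of_subset (sdiff_subset_sdiff (le_refl T) subset_union_left)]
        refine ⟨z, mem_sdiff.2 ⟨hZT hz, hZY z hz⟩, fun h => ?_⟩
        exact (mem_sdiff.1 h).2 (mem_union_right _ hz)
      · refine plane_un hsymm hYp hZp ?_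
        intro e he f hf h
        exact (mem_miss.1 (mem_sdiff.1 (hZ hf)).1).2 e he (hsymm _ _ h)
  intro Y hY hYp
  exact main _ Y rfl hY hYp

/-- PRINCIPLE, abstract form. -/
theorem prin {cross : E → E → Prop} (hsymm : ∀ e f, cross e f → cross f e) {S T : Finset E}
    (hST : Disjoint S T)
    (hl : ∀ Y ⊆ T, Plane cross Y → AcyN cross n (Miss cross (S ∪ T) Y \ Y)) : AcyN cross n S := by
  have h := prin_all hsymm hST hl ∅ (empty_subset T) (fun e he => absurd he (notMem_empty e))
  rwa [miss_empty'] at h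

/-- JOIN. -/
theorem acy_join {cross : E → E → Prop} (hsymm : ∀ e f, cross e f → cross f e) {A B : Finset E}
    (hAB : Disjoint A B) (hno : ∀ a ∈ A, ∀ b ∈ B, ¬ cross a b) (hA : AcyN cross n A) :
    AcyN cross n (A ∪ B) := by
  exact joinN hsymm hA hno

end

section
variable {V : Type*} [Fintype V] [DecidableEq V] {n : ℕ}

theorem un_un {cross : Sym2 V → Sym2 V → Prop} {W : Finset V} {F Y : Finset (Sym2 V)} :
    Un cross W (F ∪ Y) = Miss cross (Un cross W F) Y \ Y := by
  ext e
  rw [mem_un, mem_sdiff, mem_miss, mem_un]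
  constructor
  · rintro ⟨h1, h2, h3⟩
    exact ⟨⟨⟨h1, fun f hf => h2 f (mem_union_left _ hf), fun h => h3 (mem_union_left _ h)⟩,
      fun f hf => h2 f (mem_union_right _ hf)⟩, fun h => h3 (mem_union_right _ h)⟩
  · rintro ⟨⟨⟨h1, h2, h3⟩, h4⟩, h5⟩
    refine ⟨h1, fun f hf => ?_, fun h => ?_⟩
    · rcases mem_union.1 hf with h | h
      · exact h2 f h
      · exact h4 f h
    · rcases mem_union.1 h with h | h
      · exact h3 h
      · exact h5 h

/-- PRINCIPLE. `S` = some of the free edges; all plane sets `Z` of the other free edges have acyclic `Un (F + Z)`. -/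
theorem principle {cross : Sym2 V → Sym2 V → Prop} (hsymm : ∀ e f, cross e f → cross f e)
    {W : Finset V} {F S : Finset (Sym2 V)} (hS : S ⊆ Un cross W F)
    (hl : ∀ Z ⊆ Un cross W F \ S, Plane cross Z → AcyN cross n (Un cross W (F ∪ Z))) : AcyN cross n S := by
  refine prin hsymm (T := Un cross W F \ S) disjoint_sdiff ?_
  intro Y hY hYp
  rw [union_sdiff_of_subset hS, ← un_un]
  exact hl Y hY hYp

end

end H33U
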