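import Pool.Agent.Lib.H33U.Up
import Pool.Agent.Lib.H56C.C2

/-!
# H33U, file Lo: the lower room and the final statement for one crossing pair, abstract form

* `lo_short`: a room without chords straddling `c` can be shortened to a room without chords;
* `lo_cut`: for a room without chords the statement `Cut` is false (2-connectivity of maximal plane sets);
* `room_acy`: upper rooms `R, N`, lower rooms `R', N'`; never `Cut` fails for both; the given lower room has no
  straddling chord: then the straddling chords of the upper room are an acyclic complex.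
-/

set_option autoImplicit false
set_option linter.unusedSectionVars false

namespace H33U

open Finset H98P H98Z H98M H66N

variable {V : Type*} [Fintype V] [DecidableEq V] {n : ℕ} {cross : Sym2 V → Sym2 V → Prop}

/-- Shortening. -/
theorem lo_short {R : (ℕ → V) → ℕ → ℕ → Prop} {N : (ℕ → V) → ℕ → ℕ → ℕ → Prop}
    (hS : RoomSys cross R N) : ∀ (p : ℕ) (w : ℕ → V) (c : ℕ), R w p c →
      (∀ x y, N w p x y → x < c → c < y → False) → ∃ w' p' c', R w' p' c' ∧ ∀ x y, ¬ N w' p' x y := by
  intro p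
  induction p using Nat.strong_induction_on with
  | _ p ih =>
    intro w c hR hno
    by_cases h : ∃ x y, N w p x y
    · obtain ⟨j, k, hN⟩ := h
      obtain ⟨h1, h2⟩ := hS.ch hR hN
      have hjk : k ≤ c ∨ c ≤ j := by
        by_contra h3
        exact hno j k hN (by omega) (by omega)
      have hR' := hS.sh hR hN hjk
      have hshn := hS.shn hR hN hjk
      refine ih _ (by omega) _ _ hR' ?_
      intro x y hxy h3 h4
      obtain ⟨h5, h6, h7⟩ := (hshn x y).1 hxy
      refine hno _ _ h7 ?_ ?_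
      · unfold iy
        split_ifs at h3 ⊢ <;> omega
      · unfold iy
        split_ifs at h4 ⊢ <;> omega
    · push Not at h
      exact ⟨w, p, c, hR, h⟩

/-- 2-connectivity. -/
theorem lo_cut {R : (ℕ → V) → ℕ → ℕ → Prop} {N : (ℕ → V) → ℕ → ℕ → ℕ → Prop} (hG : Geo cross)
    (hS : RoomSys cross R N) {w : ℕ → V} {p c : ℕ} (hR : R w p c) (hN : ∀ x y, ¬ N w p x y) :
    ¬ Cut cross N w p := by
  intro hcut
  have hw := hS.inj hR
  have hPL : PE w p ⊆ LW (VS w p) := by
    intro e he
    obtain ⟨k, hk, rfl⟩ := mem_PE.1 he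
    rw [mem_LW]
    refine ⟨mem_VS.2 ⟨k, by omega, rfl⟩, mem_VS.2 ⟨k + 1, by omega, rfl⟩, fun h => ?_⟩
    have := hw k (by omega) (k + 1) (by omega) h
    omega
  obtain ⟨M, hM, hMax⟩ := H36L.exists_maxP (W := VS w p) hG.symm
    (fun e => by
      induction e with
      | _ a b => exact hG.adj a b b) hPL (hS.pl hR)
  obtain ⟨t, t0, tp, ht⟩ := hcut (M \ PE w p) (by
      intro e he
      obtain ⟨h1, h2⟩ := mem_sdiff.1 he
      exact mem_un.2 ⟨hMax.1 h1, fun f hf => hMax.2.1 e h1 f (hM hf), h2⟩)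
    (plane_sub sdiff_subset hMax.2.1) (fun e _ h => by
      obtain ⟨i, j, h1, _⟩ := mem_KS.1 h
      exact hN i j h1)
  obtain ⟨a, ha, b, hb, hab⟩ := H56C.two_conn hG hMax (w t) (A := (range t).image w)
    (B := (Finset.Icc (t + 1) p).image w) ⟨w 0, mem_image_of_mem _ (mem_range.2 t0)⟩
    ⟨w p, mem_image_of_mem _ (Finset.mem_Icc.2 ⟨tp, le_rfl⟩)⟩ (by
      rw [disjoint_left]
      intro u hu hu'
      obtain ⟨i, hi, rfl⟩ := mem_image.1 hu
      obtain ⟨j, hj, h1⟩ := mem_image.1 hu'
      rw [mem_range] at hi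
      rw [Finset.mem_Icc] at hj
      have := hw j hj.2 i (by omega) h1
      omega) (by
      ext u
      rw [mem_union, mem_erase, mem_image, mem_image, mem_VS]
      constructor
      · rintro (⟨i, hi, rfl⟩ | ⟨i, hi, rfl⟩)
        · rw [mem_range] at hi
          exact ⟨fun h => by have := hw i (by omega) t (by omega) h; omega, i, by omega, rfl⟩
        · rw [Finset.mem_Icc] at hi
          exact ⟨fun h => by have := hw i hi.2 t (by omega) h; omega, i, hi.2, rfl⟩
      · rintro ⟨h1, i, hi, rfl⟩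
        rcases Nat.lt_trichotomy i t with h2 | h2 | h2
        · exact Or.inl ⟨i, mem_range.2 h2, rfl⟩
        · exact absurd (by rw [h2]) h1
        · exact Or.inr ⟨i, Finset.mem_Icc.2 ⟨h2, hi⟩, rfl⟩)
  obtain ⟨x, hx, rfl⟩ := mem_image.1 ha
  obtain ⟨y, hy, rfl⟩ := mem_image.1 hb
  rw [mem_range] at hx
  rw [Finset.mem_Icc] at hy
  refine ht x y hx (by omega) hy.2 (mem_sdiff.2 ⟨hab, fun h => ?_⟩)
  obtain ⟨k, hk, h3⟩ := mem_PE.1 h
  have := pos_eq hw (by omega) (by omega) (by omega) (by omega) h3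
  omega

/-- ONE CROSSING PAIR. -/
theorem room_acy (hG : Geo cross) {R R' : (ℕ → V) → ℕ → ℕ → Prop}
    {N N' : (ℕ → V) → ℕ → ℕ → ℕ → Prop} (hS : RoomSys cross R N) (hS' : RoomSys cross R' N')
    (hX : ∀ w p c w' p' c', R w p c → R' w' p' c' → Cut cross N w p ∨ Cut cross N' w' p')
    (hH : ∀ w p c, R w p c → HCS cross n (VS w p)) {w : ℕ → V} {p c : ℕ} (hR : R w p c)
    {w' : ℕ → V} {p' c' : ℕ} (hR' : R' w' p' c')
    (hno : ∀ x y, N' w' p' x y → x < c' → c' < y → False) : AcyN cross n (ST N w p c) := by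
  obtain ⟨u, q, d, h1, h2⟩ := lo_short hS' p' w' c' hR' hno
  refine str_acy hG.symm hS (fun w p c h => ?_) hH hR
  rcases hX w p c u q d h h1 with h3 | h3
  · exact h3
  · exact absurd h3 (lo_cut hG hS' h1 h2)

end H33U
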