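import Pool.Agent.Lib.H33U.Rm
import Pool.Agent.Lib.H8C.FA
import Pool.Agent.Lib.H40X.X

/-!
# H33U, file Pair: ONE CROSSING PAIR, no open inputs

* `in_fa`: (FA) for rooms (`H30P.room_fa`);
* `pair_acy'`: `pair_acy` with `H40X.lemx`; the two paths meet in `v` only.
-/

set_option autoImplicit false
set_option linter.unusedSectionVars false

namespace H33U

open Finset H98P H98Z H98M H66N H53P H30P H10S H36L H40X

variable {V : Type*} [Fintype V] [DecidableEq V] {n : ℕ} {T : Table V} {cross : Sym2 V → Sym2 V → Prop}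

/-- (FA) -/
theorem in_fa (hS : Sees T cross) : InFA T cross := by
  intro w p A B h hcut
  by_contra hno
  push Not at hno
  apply hcut
  intro Z hZ hZp hZN
  have hfree : ∀ e ∈ Z, ∃ s t, s + 2 ≤ t ∧ t ≤ p ∧ Mis T w p (w s) (w t) ∧ e = s(w s, w t) := by
    intro e he
    obtain ⟨h1, h2, h3⟩ := mem_un.1 (hZ he)
    induction e with
    | _ a b =>
      rw [mem_LW] at h1
      obtain ⟨ha, hb, hab⟩ := h1
      obtain ⟨i, hi, rfl⟩ := mem_VS.1 ha
      obtain ⟨j, hj, rfl⟩ := mem_VS.1 hb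
      have key : ∀ i j, i < j → j ≤ p → s(w i, w j) ∉ PE w p → (∀ f ∈ PE w p, ¬ cross s(w i, w j) f) →
          ∃ s t, s + 2 ≤ t ∧ t ≤ p ∧ Mis T w p (w s) (w t) ∧ s(w i, w j) = s(w s, w t) := by
        intro i j hij hj h3 h2
        refine ⟨i, j, ?_, hj, ?_, rfl⟩
        · by_contra h4
          have h5 : j = i + 1 := by omega
          subst h5
          exact h3 (mem_PE.2 ⟨i, by omega, rfl⟩)
        · intro k hk
          have h5 := h2 _ (mem_PE.2 ⟨k, hk, rfl⟩)
          rw [hS.iff] at h5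
          simpa using h5
      have hne : i ≠ j := fun h => hab (by rw [h])
      rcases Nat.lt_or_ge i j with h4 | h4
      · exact key i j h4 hj h3 h2
      · obtain ⟨s, t, h5, h6, h7, h8⟩ := key j i (by omega) hi (by rw [Sym2.eq_swap]; exact h3)
          (by intro f hf; rw [Sym2.eq_swap]; exact h2 f hf)
        exact ⟨s, t, h5, h6, h7, by rw [Sym2.eq_swap]; exact h8⟩
  have hpl : ∀ s t x y, s(w s, w t) ∈ Z → s(w x, w y) ∈ Z → T.X (w s) (w t) (w x) (w y) = false := by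
    intro s t x y h1 h2
    have h3 := hZp _ h1 _ h2
    rw [hS.iff, Bool.not_eq_true] at h3
    exact h3
  have hN : ∀ s t, s(w s, w t) ∈ Z → ¬ NCh T w p A B s t := by
    intro s t h1 h2
    exact hZN _ h1 (mem_KS.2 ⟨s, t, h2, rfl⟩)
  rcases room_fa h Z hfree hpl hN with ⟨s, t, _, h1⟩ | ⟨c, h1, h2, h3⟩
  · exact absurd h1 (hno s t)
  · exact ⟨c, h1, h2, h3⟩

/-- ONE CROSSING PAIR -/
theorem pair_acy' (hG : Geo cross) (hS : Sees T cross) {A B C D v : V} {W0 W0' : Finset V}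
    (hH : ∀ W1 ⊆ W0, HCS cross n W1) {w : ℕ → V} {p c : ℕ} (hR : RmR T A B C D v W0 w p c)
    {w' : ℕ → V} {p' c' : ℕ} (hR' : RmR T C D A B v W0' w' p' c')
    (hd : ∀ x ∈ W0, x ∈ W0' → x = v)
    (hno : ∀ x y, NCh T w' p' C D x y → x < c' → c' < y → False) :
    AcyN cross n (ST (RmN T A B) w p c) := by
  refine room_acy hG (rm_sys hS A B C D v W0) (rm_sys hS C D A B v W0') ?_ ?_ hR hR' hno
  · intro u q d u' q' d' h h'
    by_contra hcon
    push Not at hcon
    obtain ⟨s, t, h1⟩ := in_fa hS h.room hcon.1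
    obtain ⟨s', t', h2⟩ := in_fa hS h'.room hcon.2
    have h3 := h'.room
    rw [← h.w0, ← h.wp] at h3 h2
    refine lemx h.room h3 h'.w0 h'.wp h.c0 h.cp h'.c0 h'.cp (h.hv.trans h'.hv.symm) ?_ h1 h2
    intro i hi j hj hij
    refine h.room.inj i hi d h.cp.le ?_
    rw [h.hv]
    refine hd _ (h.sub (mem_VS.2 ⟨i, hi, rfl⟩)) ?_
    rw [hij]
    exact h'.sub (mem_VS.2 ⟨j, hj, rfl⟩)
  · intro u q d h
    exact hH _ h.sub

end H33U
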