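import Pool.Agent.Lib.H33U.Lo
import Pool.Agent.Lib.H36L.NS
import Pool.Agent.Lib.H40X.Defs
import Pool.Agent.Lib.H30P.Cor

/-!
# H33U, file Rm: the rooms of a crossing pair are a system of rooms

`RmR T A B C D v W0 w p c`: a room with path from `C` to `D`, outer ends `A`, `B` (`CB x DA`), `w c = v` is an
inner vertex, all vertices in `W0`.
* `rm_sys`: `RoomSys` (`H36L.short_room`, `short_nch`, `short_nch'`, `nch_iff`);
* `pair_acy`: ONE CROSSING PAIR (inputs: FA = `hfa`, LEMMA X = `hlx`).
-/

set_option autoImplicit false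
set_option linter.unusedSectionVars false

namespace H33U

open Finset H98P H98Z H98M H66N H53P H30P H10S H36L H40X

variable {V : Type*} [Fintype V] [DecidableEq V] {n : ℕ} {T : Table V} {cross : Sym2 V → Sym2 V → Prop}

/-- the rooms of one corner -/
structure RmR (T : Table V) (A B C D v : V) (W0 : Finset V) (w : ℕ → V) (p c : ℕ) : Prop where
  room : Room T w p A B
  c0 : 0 < c
  cp : c < p
  hv : w c = v
  w0 : w 0 = C
  wp : w p = D
  sub : VS w p ⊆ W0

/-- the chords of the room -/
def RmN (T : Table V) (A B : V) (w : ℕ → V) (p i j : ℕ) : Prop := NCh T w p A B i j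

theorem VS_short {w : ℕ → V} {p j k : ℕ} (h1 : j + 2 ≤ k) (h2 : k ≤ p) :
    VS (fun t => w (iy j k t)) (p - (k - j - 1)) ⊆ VS w p := by
  intro x hx
  obtain ⟨i, hi, rfl⟩ := mem_VS.1 hx
  refine mem_VS.2 ⟨iy j k i, ?_, rfl⟩
  unfold iy
  split_ifs <;> omega

theorem rm_sys (hS : Sees T cross) (A B C D v : V) (W0 : Finset V) :
    RoomSys cross (RmR T A B C D v W0) (RmN T A B) where
  pos h := ⟨h.c0, h.cp⟩
  inj h := h.room.inj
  pl {w p c} h := by
    intro e he f hf hx
    obtain ⟨i, hi, rfl⟩ := mem_PE.1 he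
    obtain ⟨j, hj, rfl⟩ := mem_PE.1 hf
    rw [hS.iff, h.room.plane i hi j hj] at hx
    exact Bool.false_ne_true hx
  ch _ hN := ⟨hN.lt, hN.le⟩
  mis {w p c i j} h hN := by
    intro f hf hx
    obtain ⟨k, hk, rfl⟩ := mem_PE.1 hf
    rw [hS.iff, hN.mis k hk] at hx
    exact Bool.false_ne_true hx
  il {w p c i j x y} h hN hN' := by
    rw [hS.iff]
    exact nch_iff h.room hN hN'
  sh {w p c j k} h hN hjk := by
    have h1 := hN.lt
    have h2 := hN.le
    have h3 := h.c0
    have h4 := h.cp
    have e1 : iy j k (if c ≤ j then c else c - (k - j - 1)) = c := by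
      unfold iy
      split_ifs <;> omega
    refine ⟨short_room h.room hN (by omega), ?_, ?_, ?_, ?_, ?_, (VS_short h1 h2).trans h.sub⟩
    · split_ifs <;> omega
    · split_ifs <;> omega
    · show w (iy j k _) = v
      rw [e1]
      exact h.hv
    · show w (iy j k 0) = C
      have : iy j k 0 = 0 := by
        unfold iy
        split_ifs <;> omega
      rw [this]
      exact h.w0
    · show w (iy j k _) = D
      have : iy j k (p - (k - j - 1)) = p := by
        unfold iy
        split_ifs <;> omega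
      rw [this]
      exact h.wp
  shn {w p c j k} h hN hjk := by
    intro x y
    have h3 := h.c0
    have h4 := h.cp
    have h1 := hN.lt
    constructor
    · intro hc
      exact ⟨hc.lt, hc.le, short_nch h.room hN (by omega) hc⟩
    · rintro ⟨h5, h6, h7⟩
      exact short_nch' h.room hN (by omega) h5 h7

/-- input FA: if no position is free, a chord encloses `A`, `B` -/
def InFA (T : Table V) (cross : Sym2 V → Sym2 V → Prop) : Prop :=
  ∀ {w : ℕ → V} {p : ℕ} {A B : V}, Room T w p A B → ¬ Cut cross (RmN T A B) w p →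
    ∃ s t, Enc T w p A B s t

/-- input LEMMA X -/
def InLX (T : Table V) : Prop :=
  ∀ {w w' : ℕ → V} {p p' : ℕ} {A B : V}, Room T w p A B → Room T w' p' (w 0) (w p) → w' 0 = A →
    w' p' = B → ∀ {c c' : ℕ}, 0 < c → c < p → 0 < c' → c' < p' → w c = w' c' →
      ∀ {s t s' t' : ℕ}, Enc T w p A B s t → Enc T w' p' (w 0) (w p) s' t' → False

/-- ONE CROSSING PAIR: upper room `w` (from `C` to `D`), lower room `w'` (from `A` to `B`). -/
theorem pair_acy (hG : Geo cross) (hS : Sees T cross)
    (hfa : InFA T cross) (hlx : InLX T) {A B C D v : V} {W0 W0' : Finset V}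
    (hH : ∀ W1 ⊆ W0, HCS cross n W1) {w : ℕ → V} {p c : ℕ} (hR : RmR T A B C D v W0 w p c)
    {w' : ℕ → V} {p' c' : ℕ} (hR' : RmR T C D A B v W0' w' p' c')
    (hno : ∀ x y, NCh T w' p' C D x y → x < c' → c' < y → False) :
    AcyN cross n (ST (RmN T A B) w p c) := by
  refine room_acy hG (rm_sys hS A B C D v W0) (rm_sys hS C D A B v W0') ?_ ?_ hR hR' hno
  · intro u q d u' q' d' h h'
    by_contra hcon
    push Not at hcon
    obtain ⟨s, t, h1⟩ := hfa h.room hcon.1
    obtain ⟨s', t', h2⟩ := hfa h'.room hcon.2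
    have h3 := h'.room
    rw [← h.w0, ← h.wp] at h3 h2
    exact hlx h.room h3 h'.w0 h'.wp h.c0 h.cp h'.c0 h'.cp (h.hv.trans h'.hv.symm) h1 h2
  · intro u q d h
    exact hH _ h.sub

end H33U
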