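import Pool.Agent.Lib.H33U.Del
import Pool.Agent.Lib.H98M.M0

/-!
# H33U, file Up: the complex of a room, abstract form

`w 0, .., w p` a path, `c` a position on it, `N w p i j` a set of chords of the path (later: the chords inside the
room), `R w p c` a property of paths with a marked position which is kept when the path is shortened by a chord
`(j, k)` of `N` with `k ≤ c` or `c ≤ j` (`RoomSys`).

* `link_acy`: for every plane set `Y` of chords of `N` which do not straddle `c` the link of `Y` in the complex of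
  the chords of `N` is acyclic;
* `str_acy`: the complex of the chords of `N` which straddle `c` is acyclic.
Inputs: every plane set `Z` of free edges outside `N` has a position `0 < t < p` which is not straddled
(`cut`), and the cut vertex theorem for the points of the path (`HCS`).
-/

set_option autoImplicit false
set_option linter.unusedSectionVars false

namespace H33U

open Finset H98P H98Z H98M H66N

variable {V : Type*} [Fintype V] [DecidableEq V] {n : ℕ}

/-- The cut vertex theorem on `W`. -/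
def HCS (cross : Sym2 V → Sym2 V → Prop) (n : ℕ) (W : Finset V) : Prop :=
  ∀ (F : Finset (Sym2 V)) (b : V), F ⊆ LW W → Plane cross F → b ∈ W →
    ¬ Disc W F → Disc (W.erase b) (F.filter fun e => b ∉ e) → AcyN cross n (Un cross W F)

/-- the points of the path -/
def VS (w : ℕ → V) (p : ℕ) : Finset V := (range (p + 1)).image w

/-- the edges of the path -/
def PE (w : ℕ → V) (p : ℕ) : Finset (Sym2 V) := (range p).image fun k => s(w k, w (k + 1))

/-- the positions without `j + 1, .., k - 1` (as `H36L.ix`) -/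
def iy (j k t : ℕ) : ℕ := if t ≤ j then t else t + (k - j - 1)

theorem mem_VS {w : ℕ → V} {p : ℕ} {x : V} : x ∈ VS w p ↔ ∃ i ≤ p, w i = x := by
  unfold VS
  rw [mem_image]
  constructor
  · rintro ⟨i, hi, rfl⟩
    exact ⟨i, by rw [mem_range] at hi; omega, rfl⟩
  · rintro ⟨i, hi, rfl⟩
    exact ⟨i, by rw [mem_range]; omega, rfl⟩

theorem mem_PE {w : ℕ → V} {p : ℕ} {e : Sym2 V} : e ∈ PE w p ↔ ∃ k < p, s(w k, w (k + 1)) = e := by
  unfold PE
  rw [mem_image]
  constructor
  · rintro ⟨i, hi, rfl⟩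
    exact ⟨i, by rw [mem_range] at hi; omega, rfl⟩
  · rintro ⟨i, hi, rfl⟩
    exact ⟨i, by rw [mem_range]; omega, rfl⟩

/-- a chord has well defined positions -/
theorem pos_eq {w : ℕ → V} {p : ℕ} (hw : ∀ i ≤ p, ∀ j ≤ p, w i = w j → i = j) {i j x y : ℕ}
    (h1 : i < j) (h2 : j ≤ p) (h3 : x < y) (h4 : y ≤ p) (h : s(w i, w j) = s(w x, w y)) :
    i = x ∧ j = y := by
  rw [Sym2.eq_iff] at h
  rcases h with ⟨h5, h6⟩ | ⟨h5, h6⟩
  · exact ⟨hw i (by omega) x (by omega) h5, hw j h2 y h4 h6⟩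
  · have h7 := hw i (by omega) y h4 h5
    have h8 := hw j h2 x (by omega) h6
    omega

/-- A plane set which contains the path and has a position which is not straddled. -/
theorem acy_path {cross : Sym2 V → Sym2 V → Prop} {w : ℕ → V} {p : ℕ}
    (hw : ∀ i ≤ p, ∀ j ≤ p, w i = w j → i = j) (hH : HCS cross n (VS w p)) {F : Finset (Sym2 V)}
    (hF : F ⊆ LW (VS w p)) (hp : Plane cross F) (hP : PE w p ⊆ F) {t : ℕ} (t0 : 0 < t) (tp : t < p)
    (hc : ∀ x y, x < t → t < y → y ≤ p → s(w x, w y) ∉ F) : AcyN cross n (Un cross (VS w p) F) := by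
  refine hH F (w t) hF hp (mem_VS.2 ⟨t, tp.le, rfl⟩) ?_ ?_
  · rintro ⟨C, D, ⟨a, ha⟩, ⟨b, hb⟩, hCD, hCDW, hs⟩
    -- the whole path is on one side
    have key : ∀ (X Y : Finset V), X ∪ Y = VS w p → (∀ x ∈ X, ∀ y ∈ Y, s(x, y) ∉ F) → w 0 ∈ X →
        ∀ i ≤ p, w i ∈ X := by
      intro X Y hXY hno h0 i
      induction i with
      | zero => exact fun _ => h0
      | succ i ih =>
        intro hi
        have h1 := ih (by omega)
        have h2 : w (i + 1) ∈ X ∪ Y := by
          rw [hXY]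
          exact mem_VS.2 ⟨i + 1, hi, rfl⟩
        rcases mem_union.1 h2 with h | h
        · exact h
        · exact absurd (hP (mem_PE.2 ⟨i, by omega, rfl⟩)) (hno _ h1 _ h)
    have h0 : w 0 ∈ C ∪ D := by
      rw [hCDW]
      exact mem_VS.2 ⟨0, by omega, rfl⟩
    rcases mem_union.1 h0 with h | h
    · have hb' : b ∈ VS w p := hCDW ▸ mem_union_right _ hb
      obtain ⟨i, hi, rfl⟩ := mem_VS.1 hb'
      exact disjoint_left.1 hCD (key C D hCDW hs h i hi) hb
    · have ha' : a ∈ VS w p := hCDW ▸ mem_union_left _ ha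
      obtain ⟨i, hi, rfl⟩ := mem_VS.1 ha'
      refine disjoint_left.1 hCD ha (key D C (by rw [union_comm]; exact hCDW) ?_ h i hi)
      intro x hx y hy
      rw [Sym2.eq_swap]
      exact hs y hy x hx
  · refine ⟨(range t).image w, (Finset.Icc (t + 1) p).image w,
      ⟨w 0, mem_image_of_mem _ (mem_range.2 t0)⟩,
      ⟨w p, mem_image_of_mem _ (Finset.mem_Icc.2 ⟨tp, le_rfl⟩)⟩, ?_, ?_, ?_⟩
    · rw [disjoint_left]
      intro u hu hu'
      obtain ⟨i, hi, rfl⟩ := mem_image.1 hu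
      obtain ⟨j, hj, h1⟩ := mem_image.1 hu'
      rw [mem_range] at hi
      rw [Finset.mem_Icc] at hj
      have := hw j hj.2 i (by omega) h1
      omega
    · ext u
      rw [mem_union, mem_erase, mem_image, mem_image, mem_VS]
      constructor
      · rintro (⟨i, hi, rfl⟩ | ⟨i, hi, rfl⟩)
        · rw [mem_range] at hi
          exact ⟨fun h => by have := hw i (by omega) t (by omega) h; omega, i, by omega, rfl⟩
        · rw [Finset.mem_Icc] at hi
          exact ⟨fun h => by have := hw i hi.2 t (by omega) h; omega, i, hi.2, rfl⟩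
      · rintro ⟨h1, i, hi, rfl⟩
        rcases Nat.lt_trichotomy i t with h2 | h2 | h2
        · exact Or.inl ⟨i, mem_range.2 h2, rfl⟩
        · exact absurd (by rw [h2]) h1
        · exact Or.inr ⟨i, Finset.mem_Icc.2 ⟨h2, hi⟩, rfl⟩
    · intro x hx y hy h
      obtain ⟨i, hi, rfl⟩ := mem_image.1 hx
      obtain ⟨j, hj, rfl⟩ := mem_image.1 hy
      rw [mem_range] at hi
      rw [Finset.mem_Icc] at hj
      exact hc i j hi (by omega) hj.2 (mem_filter.1 h).1

/-- Rooms. -/
structure RoomSys (cross : Sym2 V → Sym2 V → Prop) (R : (ℕ → V) → ℕ → ℕ → Prop)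
    (N : (ℕ → V) → ℕ → ℕ → ℕ → Prop) : Prop where
  pos : ∀ {w p c}, R w p c → 0 < c ∧ c < p
  inj : ∀ {w p c}, R w p c → ∀ i ≤ p, ∀ j ≤ p, w i = w j → i = j
  /-- the path is plane -/
  pl : ∀ {w p c}, R w p c → Plane cross (PE w p)
  /-- chords -/
  ch : ∀ {w p c i j}, R w p c → N w p i j → i + 2 ≤ j ∧ j ≤ p
  mis : ∀ {w p c i j}, R w p c → N w p i j → ∀ f ∈ PE w p, ¬ cross s(w i, w j) f
  /-- chords in the room cross iff they interleave -/
  il : ∀ {w p c i j x y}, R w p c → N w p i j → N w p x y →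
    (cross s(w i, w j) s(w x, w y) ↔ (i < x ∧ x < j ∧ j < y) ∨ (x < i ∧ i < y ∧ y < j))
  /-- shortening -/
  sh : ∀ {w p c j k}, R w p c → N w p j k → (k ≤ c ∨ c ≤ j) →
    R (fun t => w (iy j k t)) (p - (k - j - 1)) (if c ≤ j then c else c - (k - j - 1))
  shn : ∀ {w p c j k}, R w p c → N w p j k → (k ≤ c ∨ c ≤ j) → ∀ x y,
    N (fun t => w (iy j k t)) (p - (k - j - 1)) x y ↔
      x + 2 ≤ y ∧ y ≤ p - (k - j - 1) ∧ N w p (iy j k x) (iy j k y)

open Classical in
/-- the chords -/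
noncomputable def KS (N : (ℕ → V) → ℕ → ℕ → ℕ → Prop) (w : ℕ → V) (p : ℕ) : Finset (Sym2 V) :=
  univ.filter fun e => ∃ i j, N w p i j ∧ s(w i, w j) = e

open Classical in
/-- the chords which do not straddle `c` -/
noncomputable def NS (N : (ℕ → V) → ℕ → ℕ → ℕ → Prop) (w : ℕ → V) (p c : ℕ) : Finset (Sym2 V) :=
  univ.filter fun e => ∃ i j, N w p i j ∧ (j ≤ c ∨ c ≤ i) ∧ s(w i, w j) = e

open Classical in
/-- the chords which straddle `c` -/
noncomputable def ST (N : (ℕ → V) → ℕ → ℕ → ℕ → Prop) (w : ℕ → V) (p c : ℕ) : Finset (Sym2 V) :=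
  univ.filter fun e => ∃ i j, N w p i j ∧ i < c ∧ c < j ∧ s(w i, w j) = e

open Classical in
/-- the chords in the pocket of `(j, k)` -/
noncomputable def PK (N : (ℕ → V) → ℕ → ℕ → ℕ → Prop) (w : ℕ → V) (p j k : ℕ) : Finset (Sym2 V) :=
  univ.filter fun e => ∃ x y, N w p x y ∧ j ≤ x ∧ y ≤ k ∧ (x ≠ j ∨ y ≠ k) ∧ s(w x, w y) = e

theorem mem_KS {N : (ℕ → V) → ℕ → ℕ → ℕ → Prop} {w : ℕ → V} {p : ℕ} {e : Sym2 V} :
    e ∈ KS N w p ↔ ∃ i j, N w p i j ∧ s(w i, w j) = e := by
  classical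
  simp only [KS, mem_filter, mem_univ, true_and]

theorem mem_NS {N : (ℕ → V) → ℕ → ℕ → ℕ → Prop} {w : ℕ → V} {p c : ℕ} {e : Sym2 V} :
    e ∈ NS N w p c ↔ ∃ i j, N w p i j ∧ (j ≤ c ∨ c ≤ i) ∧ s(w i, w j) = e := by
  classical
  simp only [NS, mem_filter, mem_univ, true_and]

theorem mem_ST {N : (ℕ → V) → ℕ → ℕ → ℕ → Prop} {w : ℕ → V} {p c : ℕ} {e : Sym2 V} :
    e ∈ ST N w p c ↔ ∃ i j, N w p i j ∧ i < c ∧ c < j ∧ s(w i, w j) = e := by
  classical
  simp only [ST, mem_filter, mem_univ, true_and]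

theorem mem_PK {N : (ℕ → V) → ℕ → ℕ → ℕ → Prop} {w : ℕ → V} {p j k : ℕ} {e : Sym2 V} :
    e ∈ PK N w p j k ↔ ∃ x y, N w p x y ∧ j ≤ x ∧ y ≤ k ∧ (x ≠ j ∨ y ≠ k) ∧ s(w x, w y) = e := by
  classical
  simp only [PK, mem_filter, mem_univ, true_and]

/-- (cut): every plane set of free edges outside the chords leaves a position unstraddled -/
def Cut (cross : Sym2 V → Sym2 V → Prop) (N : (ℕ → V) → ℕ → ℕ → ℕ → Prop) (w : ℕ → V) (p : ℕ) : Prop :=
  ∀ Z : Finset (Sym2 V), Z ⊆ Un cross (VS w p) (PE w p) → Plane cross Z → (∀ e ∈ Z, e ∉ KS N w p) →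
    ∃ t, 0 < t ∧ t < p ∧ ∀ x y, x < t → t < y → y ≤ p → s(w x, w y) ∉ Z

section
variable {cross : Sym2 V → Sym2 V → Prop} {R : (ℕ → V) → ℕ → ℕ → Prop}
  {N : (ℕ → V) → ℕ → ℕ → ℕ → Prop}

/-- the complex of all chords -/
theorem base_acy (hsymm : ∀ e f, cross e f → cross f e) (hS : RoomSys cross R N) {w : ℕ → V}
    {p c : ℕ} (hR : R w p c) (hcut : Cut cross N w p) (hH : HCS cross n (VS w p)) :
    AcyN cross n (KS N w p) := by
  have hw := hS.inj hR
  have hKS : KS N w p ⊆ Un cross (VS w p) (PE w p) := by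
    intro e he
    obtain ⟨i, j, hN, rfl⟩ := mem_KS.1 he
    obtain ⟨h1, h2⟩ := hS.ch hR hN
    rw [mem_un, mem_LW]
    refine ⟨⟨mem_VS.2 ⟨i, by omega, rfl⟩, mem_VS.2 ⟨j, h2, rfl⟩, fun h => ?_⟩, hS.mis hR hN, ?_⟩
    · have := hw i (by omega) j h2 h
      omega
    · intro h
      obtain ⟨k, hk, h3⟩ := mem_PE.1 h
      have := pos_eq hw (by omega) (by omega) (by omega) (by omega) h3
      omega
  refine principle hsymm hKS ?_
  intro Z hZ hZp
  have hZU : Z ⊆ Un cross (VS w p) (PE w p) := hZ.trans sdiff_subset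
  obtain ⟨t, t0, tp, ht⟩ := hcut Z hZU hZp (fun e he => (mem_sdiff.1 (hZ he)).2)
  refine acy_path hw hH ?_ ?_ subset_union_left t0 tp ?_
  · intro e he
    rcases mem_union.1 he with h | h
    · obtain ⟨k, hk, rfl⟩ := mem_PE.1 h
      rw [mem_LW]
      refine ⟨mem_VS.2 ⟨k, by omega, rfl⟩, mem_VS.2 ⟨k + 1, by omega, rfl⟩, fun h => ?_⟩
      have := hw k (by omega) (k + 1) (by omega) h
      omega
    · exact (mem_un.1 (hZU h)).1
  · refine plane_un hsymm (hS.pl hR) hZp ?_
    intro e he f hf h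
    exact (mem_un.1 (hZU hf)).2.1 e he (hsymm _ _ h)
  · intro x y hx hy hyp h
    rcases mem_union.1 h with h | h
    · obtain ⟨k, hk, h3⟩ := mem_PE.1 h
      have := pos_eq hw (by omega) (by omega) (by omega) (by omega) h3
      omega
    · exact ht x y hx hy hyp h

/-- LINKS. -/
theorem link_acy (hsymm : ∀ e f, cross e f → cross f e) (hS : RoomSys cross R N)
    (hcut : ∀ w p c, R w p c → Cut cross N w p) (hH : ∀ w p c, R w p c → HCS cross n (VS w p)) :
    ∀ (p : ℕ) (w : ℕ → V) (c : ℕ), R w p c → ∀ Y ⊆ NS N w p c, Plane cross Y →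
      AcyN cross n (Miss cross (KS N w p) Y \ Y) := by
  intro p
  induction p using Nat.strong_induction_on with
  | _ p ih =>
    intro w c hR Y hY hYp
    have hw := hS.inj hR
    obtain ⟨hc0, hcp⟩ := hS.pos hR
    rcases Y.eq_empty_or_nonempty with rfl | ⟨e, he⟩
    · rw [miss_empty', sdiff_empty]
      exact base_acy hsymm hS hR (hcut w p c hR) (hH w p c hR)
    obtain ⟨j, k, hN, hjk, rfl⟩ := mem_NS.1 (hY he)
    obtain ⟨h1, h2⟩ := hS.ch hR hN
    have hR' := hS.sh hR hN hjk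
    have hshn := hS.shn hR hN hjk
    -- the short room
    have hK' : ∀ f, f ∈ KS N (fun t => w (iy j k t)) (p - (k - j - 1)) ↔
        ∃ x y, N w p x y ∧ (x ≤ j ∨ k ≤ x) ∧ (y ≤ j ∨ k ≤ y) ∧ (x ≠ j ∨ y ≠ k) ∧ s(w x, w y) = f := by
      intro f
      rw [mem_KS]
      constructor
      · rintro ⟨x, y, hxy, rfl⟩
        obtain ⟨h3, h4, h5⟩ := (hshn x y).1 hxy
        refine ⟨iy j k x, iy j k y, h5, ?_, ?_, ?_, rfl⟩
        · unfold iy
          split_ifs <;> omega
        · unfold iy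
          split_ifs <;> omega
        · unfold iy
          split_ifs <;> omega
      · rintro ⟨x, y, hxy, hx, hy, hne, rfl⟩
        obtain ⟨h3, h4⟩ := hS.ch hR hxy
        have ex : ∀ z, (z ≤ j ∨ k ≤ z) → iy j k (if z ≤ j then z else z - (k - j - 1)) = z := by
          intro z hz
          unfold iy
          split_ifs <;> omega
        refine ⟨if x ≤ j then x else x - (k - j - 1), if y ≤ j then y else y - (k - j - 1), ?_, ?_⟩
        · rw [hshn, ex x hx, ex y hy]
          refine ⟨?_, ?_, hxy⟩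
          · split_ifs <;> omega
          · split_ifs <;> omega
        · show s(w (iy j k _), w (iy j k _)) = _
          rw [ex x hx, ex y hy]
    set K' := KS N (fun t => w (iy j k t)) (p - (k - j - 1)) with hK'def
    set P := PK N w p j k with hPdef
    have hno : ∀ f ∈ K', ∀ g ∈ P, ¬ cross f g := by
      intro f hf g hg
      obtain ⟨x, y, hxy, hx, hy, hne, rfl⟩ := (hK' f).1 hf
      obtain ⟨x', y', hxy', hx', hy', hne', rfl⟩ := mem_PK.1 hg
      have h3 := hS.ch hR hxy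
      have h4 := hS.ch hR hxy'
      rw [hS.il hR hxy hxy']
      omega
    have hdis : Disjoint K' P := by
      rw [disjoint_left]
      intro f hf hg
      obtain ⟨x, y, hxy, hx, hy, hne, rfl⟩ := (hK' f).1 hf
      obtain ⟨x', y', hxy', hx', hy', hne', h5⟩ := mem_PK.1 hg
      have h3 := hS.ch hR hxy
      have h4 := hS.ch hR hxy'
      have h6 := pos_eq hw (by omega) h4.2 (by omega) h3.2 h5
      omega
    have hsplit : Miss cross (KS N w p) Y \ Y =
        (Miss cross K' (Y ∩ K') \ (Y ∩ K')) ∪ (Miss cross P (Y ∩ P) \ (Y ∩ P)) := by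
      have hYcase : ∀ g ∈ Y, g ∈ K' ∨ g ∈ P ∨ g = s(w j, w k) := by
        intro g hg
        obtain ⟨x, y, hxy, hxc, rfl⟩ := mem_NS.1 (hY hg)
        have h3 := hS.ch hR hxy
        have h4 : ¬ cross s(w x, w y) s(w j, w k) := hYp _ hg _ he
        rw [hS.il hR hxy hN] at h4
        by_cases h5 : x = j ∧ y = k
        · right; right
          rw [h5.1, h5.2]
        · by_cases h6 : j ≤ x ∧ y ≤ k
          · right; left
            exact mem_PK.2 ⟨x, y, hxy, h6.1, h6.2, by omega, rfl⟩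
          · left
            exact (hK' _).2 ⟨x, y, hxy, by omega, by omega, by omega, rfl⟩
      ext f
      rw [mem_sdiff, mem_miss, mem_union, mem_sdiff, mem_miss, mem_sdiff, mem_miss]
      constructor
      · rintro ⟨⟨hf, hf2⟩, hf3⟩
        obtain ⟨x, y, hxy, rfl⟩ := mem_KS.1 hf
        have h3 := hS.ch hR hxy
        have h4 := hf2 _ he
        rw [hS.il hR hxy hN] at h4
        have h5 : ¬ (x = j ∧ y = k) := by
          rintro ⟨rfl, rfl⟩
          exact hf3 he
        by_cases h6 : j ≤ x ∧ y ≤ k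
        · right
          refine ⟨⟨mem_PK.2 ⟨x, y, hxy, h6.1, h6.2, by omega, rfl⟩, fun g hg => hf2 g (mem_inter.1 hg).1⟩,
            fun h => hf3 (mem_inter.1 h).1⟩
        · left
          refine ⟨⟨(hK' _).2 ⟨x, y, hxy, by omega, by omega, by omega, rfl⟩,
            fun g hg => hf2 g (mem_inter.1 hg).1⟩, fun h => hf3 (mem_inter.1 h).1⟩
      · rintro (⟨⟨hf, hf2⟩, hf3⟩ | ⟨⟨hf, hf2⟩, hf3⟩)
        · obtain ⟨x, y, hxy, hx, hy, hne, rfl⟩ := (hK' f).1 hf
          refine ⟨⟨mem_KS.2 ⟨x, y, hxy, rfl⟩, fun g hg => ?_⟩, fun h => hf3 (mem_inter.2 ⟨h, hf⟩)⟩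
          rcases hYcase g hg with h | h | h
          · exact hf2 g (mem_inter.2 ⟨hg, h⟩)
          · exact hno _ hf g h
          · rw [h, hS.il hR hxy hN]
            have h3 := hS.ch hR hxy
            omega
        · obtain ⟨x, y, hxy, hx, hy, hne, rfl⟩ := mem_PK.1 hf
          refine ⟨⟨mem_KS.2 ⟨x, y, hxy, rfl⟩, fun g hg => ?_⟩, fun h => hf3 (mem_inter.2 ⟨h, hf⟩)⟩
          rcases hYcase g hg with h | h | h
          · exact fun h' => hno g h _ hf (hsymm _ _ h')
          · exact hf2 g (mem_inter.2 ⟨hg, h⟩)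
          · rw [h, hS.il hR hxy hN]
            omega
    rw [hsplit]
    refine acy_join hsymm ?_ ?_ ?_
    · rw [disjoint_left]
      intro f hf hg
      exact disjoint_left.1 hdis (mem_miss.1 (mem_sdiff.1 hf).1).1 (mem_miss.1 (mem_sdiff.1 hg).1).1
    · intro f hf g hg
      exact hno f (mem_miss.1 (mem_sdiff.1 hf).1).1 g (mem_miss.1 (mem_sdiff.1 hg).1).1
    · refine ih _ (by omega) _ _ hR' _ ?_ (plane_sub inter_subset_left hYp)
      intro f hf
      obtain ⟨hf1, hf2⟩ := mem_inter.1 hf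
      obtain ⟨x, y, hxy, rfl⟩ := mem_KS.1 (hK'def ▸ hf2)
      obtain ⟨h3, h4, h5⟩ := (hshn x y).1 hxy
      obtain ⟨x', y', hxy', hc', h6⟩ := mem_NS.1 (hY hf1)
      have h7 := hS.ch hR hxy'
      have h8 := hS.ch hR h5
      have h9 := pos_eq hw (by omega) h7.2 (by omega) h8.2 h6
      refine mem_NS.2 ⟨x, y, hxy, ?_, rfl⟩
      obtain ⟨h10, h11⟩ := h9
      subst h10 h11
      unfold iy at hc'
      split_ifs at hc' ⊢ <;> omega

/-- The chords which straddle `c`. -/
theorem str_acy (hsymm : ∀ e f, cross e f → cross f e) (hS : RoomSys cross R N)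
    (hcut : ∀ w p c, R w p c → Cut cross N w p) (hH : ∀ w p c, R w p c → HCS cross n (VS w p))
    {w : ℕ → V} {p c : ℕ} (hR : R w p c) : AcyN cross n (ST N w p c) := by
  have hw := hS.inj hR
  have hK : KS N w p = ST N w p c ∪ NS N w p c := by
    ext f
    rw [mem_union, mem_KS, mem_ST, mem_NS]
    constructor
    · rintro ⟨i, j, h, rfl⟩
      by_cases h1 : i < c ∧ c < j
      · exact Or.inl ⟨i, j, h, h1.1, h1.2, rfl⟩
      · exact Or.inr ⟨i, j, h, by omega, rfl⟩
    · rintro (⟨i, j, h, _, _, rfl⟩ | ⟨i, j, h, _, rfl⟩)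
      · exact ⟨i, j, h, rfl⟩
      · exact ⟨i, j, h, rfl⟩
  refine prin hsymm (S := ST N w p c) (T := NS N w p c) ?_ ?_
  · rw [disjoint_left]
    intro f hf hg
    obtain ⟨i, j, h, h1, h2, rfl⟩ := mem_ST.1 hf
    obtain ⟨x, y, h', h3, h4⟩ := mem_NS.1 hg
    have h5 := hS.ch hR h
    have h6 := hS.ch hR h'
    have := pos_eq hw (by omega) h6.2 (by omega) h5.2 h4
    omega
  · intro Y hY hYp
    rw [← hK]
    exact link_acy hsymm hS hcut hH p w c hR Y hY hYp

end

end H33U
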